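import Mathlib

/-!
Soluble linear groups have a subgroup of bounded index whose derived subgroup acts unipotently.
-/

namespace Pool.Agent.P.MP_257122_al.H1

open Module
open scoped commutatorElement

section Chars
variable {K E ι : Type} [Field K] [AddCommGroup E] [Module K E]

/-- simultaneous eigenvectors for distinct characters are independent -/
theorem mal_indep (T : ι → Module.End K E) {κ : Type} (χ : κ → ι → K)
    (hχ : Function.Injective χ) (v : κ → E) (hv0 : ∀ k, v k ≠ 0)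
    (hv : ∀ k i, T i (v k) = χ k i • v k) : LinearIndependent K v := by
  classical
  rw [linearIndependent_iff']
  intro s
  induction s using Finset.induction_on with
  | empty => simp
  | insert a s ha ih =>
    intro g hg
    rw [Finset.sum_insert ha] at hg
    have hs : ∀ k ∈ s, g k = 0 := by
      intro k hk
      have hne : χ k ≠ χ a := fun h => ha (hχ h ▸ hk)
      obtain ⟨i, hi⟩ := Function.ne_iff.1 hne
      have h1 := congrArg (T i - χ a i • (1 : Module.End K E)) hg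
      rw [map_zero, map_add, map_sum] at h1
      simp only [map_smul, LinearMap.sub_apply, LinearMap.smul_apply, Module.End.one_apply, hv,
        sub_self, smul_zero, zero_add, ← sub_smul, smul_smul] at h1
      have h2 := ih (fun k => g k * (χ k i - χ a i)) h1 k hk
      exact (mul_eq_zero.1 h2).resolve_right (sub_ne_zero.2 hi)
    intro k hk
    rcases Finset.mem_insert.1 hk with rfl | hk
    · rw [Finset.sum_eq_zero fun k hk => by rw [hs k hk, zero_smul], add_zero] at hg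
      exact (smul_eq_zero.1 hg).resolve_right (hv0 _)
    · exact hs k hk

theorem mal_card [Module.Finite K E] (T : ι → Module.End K E) :
    {χ : ι → K | ∃ v, v ≠ 0 ∧ ∀ i, T i v = χ i • v}.Finite ∧
    {χ : ι → K | ∃ v, v ≠ 0 ∧ ∀ i, T i v = χ i • v}.ncard ≤ finrank K E := by
  set S := {χ : ι → K | ∃ v, v ≠ 0 ∧ ∀ i, T i v = χ i • v}
  choose v hv0 hv using fun χ : S => χ.2
  have hli := mal_indep T (fun χ : S => (χ : ι → K)) Subtype.val_injective v hv0 hv
  have hfin : Finite S := hli.finite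
  refine ⟨Set.toFinite S, ?_⟩
  have := Fintype.ofFinite S
  rw [← Nat.card_coe_set_eq, Nat.card_eq_fintype_card]
  exact hli.fintype_card_le_finrank

/-- a commuting family has a common eigenvector -/
theorem mal_common [IsAlgClosed K] [Module.Finite K E] [Nontrivial E] (T : ι → Module.End K E)
    (hT : ∀ i j, T i * T j = T j * T i) : ∃ (χ : ι → K) (v : E), v ≠ 0 ∧ ∀ i, T i v = χ i • v := by
  classical
  let P : ℕ → Prop := fun n => ∃ U : Submodule K E, U ≠ ⊥ ∧ (∀ i, ∀ u ∈ U, T i u ∈ U) ∧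
    finrank K U = n
  have hP : ∃ n, P n := ⟨_, ⊤, top_ne_bot, fun _ _ _ => Submodule.mem_top, rfl⟩
  obtain ⟨U, hU0, hU, hn⟩ := Nat.find_spec hP
  have key : ∀ i, ∃ c : K, ∀ u ∈ U, T i u = c • u := fun i => by
    have : Nontrivial U := Submodule.nontrivial_iff_ne_bot.2 hU0
    obtain ⟨c, hc⟩ := Module.End.exists_eigenvalue ((T i).restrict (hU i))
    obtain ⟨w, hw⟩ := hc.exists_hasEigenvector
    have hw1 : T i w = c • (w : E) := congrArg Subtype.val hw.apply_eq_smul
    let U' : Submodule K E := U ⊓ (T i).eigenspace c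
    have h1 : Nat.find hP ≤ finrank K U' := Nat.find_min' hP ⟨U', fun h => ?_, fun j u hu => ?_, rfl⟩
    · have h2 : U' = U := Submodule.eq_of_le_of_finrank_le inf_le_left (hn ▸ h1)
      exact ⟨c, fun u hu => Module.End.mem_eigenspace_iff.1 (h2 ▸ hu : u ∈ U').2⟩
    · have : (w : E) ∈ U' := ⟨w.2, Module.End.mem_eigenspace_iff.2 hw1⟩
      rw [h, Submodule.mem_bot] at this
      exact hw.2 (Subtype.ext this)
    · refine ⟨hU j u hu.1, Module.End.mem_eigenspace_iff.2 ?_⟩
      rw [← Module.End.mul_apply, hT, Module.End.mul_apply, Module.End.mem_eigenspace_iff.1 hu.2,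
        map_smul]
  choose χ hχ using key
  obtain ⟨v, hv, hv0⟩ := Submodule.exists_mem_ne_zero_of_ne_bot hU0
  exact ⟨χ, v, hv0, fun i => hχ i v hv⟩

end Chars

section Tri
variable {K V G : Type} [Field K] [AddCommGroup V] [Module K V] [Group G]

/-- products of `n` factors `ρ x - 1` with `x ∈ D` vanish -/
def Uni (ρ : G →* Module.End K V) (D : Subgroup G) (n : ℕ) : Prop :=
  ∀ l : List G, (∀ x ∈ l, x ∈ D) → n ≤ l.length → (l.map fun x => ρ x - 1).prod = 0

theorem Uni.mono {ρ : G →* Module.End K V} {D D' : Subgroup G} {n n' : ℕ} (h : Uni ρ D n)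
    (hD : D' ≤ D) (hn : n ≤ n') : Uni ρ D' n' :=
  fun l hl hl' => h l (fun x hx => hD (hl x hx)) (hn.trans hl')

theorem Uni.map_subtype {ρ : G →* Module.End K V} {S : Subgroup G} {H : Subgroup S} {n : ℕ}
    (h : Uni (ρ.comp S.subtype) ⁅H, H⁆ n) : Uni ρ ⁅H.map S.subtype, H.map S.subtype⁆ n := by
  intro l hl hl'
  rw [← Subgroup.map_commutator] at hl
  lift l to List S using fun x hx => by obtain ⟨y, -, rfl⟩ := hl x hx; exact y.2
  rw [List.length_map] at hl'
  rw [List.map_map]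
  refine h l (fun x hx => ?_) hl'
  obtain ⟨y, hy, e⟩ := hl x (List.mem_map_of_mem hx)
  exact (Subtype.ext e : y = x) ▸ hy

/-- restriction to an invariant subspace -/
def subRep (ρ : G →* Module.End K V) (W : Submodule K V) (hW : ∀ g, ∀ w ∈ W, ρ g w ∈ W) :
    G →* Module.End K W where
  toFun g := (ρ g).restrict (hW g)
  map_one' := by ext w; simp
  map_mul' g h := by ext w; simp

/-- the action on the quotient by an invariant subspace -/
def quoRep (ρ : G →* Module.End K V) (W : Submodule K V) (hW : ∀ g, ∀ w ∈ W, ρ g w ∈ W) :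
    G →* Module.End K (V ⧸ W) where
  toFun g := W.mapQ W (ρ g) (hW g)
  map_one' := by ext w; simp
  map_mul' g h := by ext w; simp

theorem sub_prod (ρ : G →* Module.End K V) (W : Submodule K V) (hW : ∀ g, ∀ w ∈ W, ρ g w ∈ W)
    (l : List G) (w : W) : (((l.map fun x => subRep ρ W hW x - 1).prod w : W) : V) =
      (l.map fun x => ρ x - 1).prod w := by
  induction l with
  | nil => simp
  | cons a l ih =>
    simp only [List.map_cons, List.prod_cons, Module.End.mul_apply, LinearMap.sub_apply,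
      Module.End.one_apply, ← ih]
    rfl

theorem quo_prod (ρ : G →* Module.End K V) (W : Submodule K V) (hW : ∀ g, ∀ w ∈ W, ρ g w ∈ W)
    (l : List G) (v : V) : (l.map fun x => quoRep ρ W hW x - 1).prod (W.mkQ v) =
      W.mkQ ((l.map fun x => ρ x - 1).prod v) := by
  induction l with
  | nil => simp
  | cons a l ih =>
    simp only [List.map_cons, List.prod_cons, Module.End.mul_apply, LinearMap.sub_apply,
      Module.End.one_apply, ih, map_sub]
    rfl

theorem Uni.ext {ρ : G →* Module.End K V} {W : Submodule K V} (hW : ∀ g, ∀ w ∈ W, ρ g w ∈ W)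
    {D : Subgroup G} {a b : ℕ} (h1 : Uni (subRep ρ W hW) D a) (h2 : Uni (quoRep ρ W hW) D b) :
    Uni ρ D (a + b) := by
  intro l hl hl'
  rw [← List.take_append_drop a l, List.map_append, List.prod_append]
  ext v
  have e2 := quo_prod ρ W hW (l.drop a) v
  rw [h2 _ (fun x hx => hl x (List.mem_of_mem_drop hx)) (by simp; omega), LinearMap.zero_apply,
    eq_comm, Submodule.mkQ_apply, Submodule.Quotient.mk_eq_zero] at e2
  have e1 := sub_prod ρ W hW (l.take a) ⟨_, e2⟩
  rw [h1 _ (fun x hx => hl x (List.mem_of_mem_take hx)) (by simp; omega)] at e1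
  exact e1.symm

end Tri

/-- the statement proved by double induction -/
def MalP (r e f : ℕ) : Prop :=
  ∀ (K : Type) [Field K] [IsAlgClosed K] (V : Type) [AddCommGroup V] [Module K V]
    [Module.Finite K V], finrank K V ≤ r → ∀ (G : Type) [Group G] (ρ : G →* Module.End K V),
    (∀ g ∈ derivedSeries G e, ∃ c : K, ρ g = c • 1) →
    ∃ H : Subgroup G, H.index ≠ 0 ∧ H.index ≤ f ∧ Uni ρ ⁅H, H⁆ (finrank K V)

theorem mal_sub {G : Type} [Group G] {e : ℕ} (S : Subgroup G) {g : S}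
    (hg : g ∈ derivedSeries S e) : (g : G) ∈ derivedSeries G e :=
  map_derivedSeries_le_derivedSeries S.subtype e ⟨g, hg, rfl⟩

theorem mal_pass {K V G : Type} [Field K] [AddCommGroup V] [Module K V] [Group G]
    {ρ : G →* Module.End K V} {S : Subgroup G} {n f f' : ℕ} (h0 : S.index ≠ 0) (h1 : S.index ≤ f')
    (h : ∃ H : Subgroup S, H.index ≠ 0 ∧ H.index ≤ f ∧ Uni (ρ.comp S.subtype) ⁅H, H⁆ n) :
    ∃ H : Subgroup G, H.index ≠ 0 ∧ H.index ≤ f * f' ∧ Uni ρ ⁅H, H⁆ n := by
  obtain ⟨H, a, b, c⟩ := h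
  refine ⟨H.map S.subtype, ?_, ?_, c.map_subtype⟩ <;> rw [Subgroup.index_map_subtype]
  · exact mul_ne_zero a h0
  · exact Nat.mul_le_mul b h1

theorem mal_red {r e f : ℕ} (ih : MalP r e f) {K V G : Type} [Field K] [IsAlgClosed K]
    [AddCommGroup V] [Module K V] [Module.Finite K V] (hV : finrank K V ≤ r + 1) [Group G]
    (ρ : G →* Module.End K V) (hρ : ∀ g ∈ derivedSeries G e, ∃ c : K, ρ g = c • 1)
    (W : Submodule K V) (hW : ∀ g, ∀ w ∈ W, ρ g w ∈ W) (h0 : W ≠ ⊥) (h1 : W ≠ ⊤) :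
    ∃ H : Subgroup G, H.index ≠ 0 ∧ H.index ≤ f * f ∧ Uni ρ ⁅H, H⁆ (finrank K V) := by
  have e1 := W.finrank_quotient_add_finrank
  have e2 := Submodule.finrank_lt h1
  have e3 : finrank K W ≠ 0 := fun h => h0 (Submodule.finrank_eq_zero.1 h)
  obtain ⟨H₁, a₁, b₁, c₁⟩ := ih K W (by omega) G (subRep ρ W hW) fun g hg => by
    obtain ⟨c, hc⟩ := hρ g hg
    exact ⟨c, by ext w; simp [subRep, hc]⟩
  obtain ⟨H₂, a₂, b₂, c₂⟩ := ih K (V ⧸ W) (by omega) G (quoRep ρ W hW) fun g hg => by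
    obtain ⟨c, hc⟩ := hρ g hg
    exact ⟨c, by ext w; simp [quoRep, hc]⟩
  refine ⟨H₁ ⊓ H₂, Subgroup.index_inf_ne_zero a₁ a₂,
    Subgroup.index_inf_le.trans (Nat.mul_le_mul b₁ b₂), ?_⟩
  exact (Uni.ext hW (c₁.mono (Subgroup.commutator_mono inf_le_left inf_le_left) le_rfl)
    (c₂.mono (Subgroup.commutator_mono inf_le_right inf_le_right) le_rfl)).mono le_rfl (by omega)

theorem mal_zero (r : ℕ) : MalP r 0 1 := by
  intro K _ _ V _ _ _ _ G _ ρ hρ
  refine ⟨⊤, by simp, by simp, fun l hl hl' => ?_⟩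
  rcases l with _ | ⟨a, l⟩
  · have : Subsingleton V := Module.finrank_zero_iff.1 (by simpa using hl')
    exact Subsingleton.elim _ _
  · have h1 : ⁅(⊤ : Subgroup G), ⊤⁆ ≤ ρ.toHomUnits.ker := by
      rw [Subgroup.commutator_le]
      intro g _ h _
      obtain ⟨c, hc⟩ := hρ g (Subgroup.mem_top g)
      rw [MonoidHom.mem_ker, map_commutatorElement, commutatorElement_eq_one_iff_mul_comm]
      ext1
      simp [hc]
    have h2 : ρ a = 1 := congrArg Units.val (h1 (hl a List.mem_cons_self))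
    simp [h2]

theorem mal_rank_zero (e : ℕ) : MalP 0 e 1 := by
  intro K _ _ V _ _ _ hV G _ ρ _
  have : Subsingleton V := (Module.finrank_zero_iff (R := K)).1 (by omega)
  exact ⟨⊤, by simp, by simp, fun _ _ _ => Subsingleton.elim _ _⟩

section Step
variable {K V G : Type} [Field K] [AddCommGroup V] [Module K V] [Module.Finite K V] [Group G]

/-- a normal subgroup with commutative non-scalar image gives a reducible subgroup -/
theorem mal_split [IsAlgClosed K] [Nontrivial V] (ρ : G →* Module.End K V) (Z : Subgroup G)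
    [hZ : Z.Normal] (hc : ∀ a ∈ Z, ∀ b ∈ Z, ρ a * ρ b = ρ b * ρ a) {z : G} (hz : z ∈ Z)
    (hz' : ¬ ∃ c : K, ρ z = c • 1) : ∃ S : Subgroup G, S.index ≠ 0 ∧ S.index ≤ finrank K V ∧
      ∃ W : Submodule K V, (∀ g ∈ S, ∀ w ∈ W, ρ g w ∈ W) ∧ W ≠ ⊥ ∧ W ≠ ⊤ := by
  letI : MulAction G (Z → K) :=
    { smul := fun g χ a => χ ⟨g⁻¹ * a * g, by simpa using hZ.conj_mem a a.2 g⁻¹⟩
      one_smul := fun χ => by funext a; change χ _ = _; simp
      mul_smul := fun g h χ => by
        funext a; change χ _ = χ _; congr 1; ext; simp [mul_assoc] }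
  have hsm : ∀ (g : G) (χ : Z → K) (v : V), (∀ a : Z, ρ a v = χ a • v) →
      ∀ a : Z, ρ a (ρ g v) = (g • χ) a • ρ g v := fun g χ v hv a => by
    have := hv ⟨g⁻¹ * a * g, by simpa using hZ.conj_mem a a.2 g⁻¹⟩
    change _ = χ _ • _
    rw [← map_smul, ← this, ← Module.End.mul_apply, ← Module.End.mul_apply, ← map_mul, ← map_mul]
    simp [mul_assoc]
  obtain ⟨χ, v, hv0, hv⟩ := mal_common (fun a : Z => ρ a) fun a b => hc a a.2 b b.2
  obtain ⟨hf, hn⟩ := mal_card (fun a : Z => ρ a)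
  have hsub : MulAction.orbit G χ ⊆ {χ : Z → K | ∃ v, v ≠ 0 ∧ ∀ a : Z, ρ a v = χ a • v} := by
    rintro _ ⟨g, rfl⟩
    refine ⟨ρ g v, fun h => hv0 ?_, hsm g χ v hv⟩
    have := congrArg (ρ g⁻¹) h
    rwa [← Module.End.mul_apply, ← map_mul, inv_mul_cancel, map_one, map_zero] at this
  refine ⟨MulAction.stabilizer G χ, ?_, ?_, ⨅ a : Z, (ρ a).eigenspace (χ a), ?_, ?_, ?_⟩
  · rw [MulAction.index_stabilizer]
    exact ((Set.ncard_pos (hf.subset hsub)).2 ⟨χ, MulAction.mem_orbit_self χ⟩).ne'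
  · rw [MulAction.index_stabilizer]
    exact (Set.ncard_le_ncard hsub hf).trans hn
  · intro g hg w hw
    simp only [Submodule.mem_iInf, Module.End.mem_eigenspace_iff] at hw ⊢
    have := hsm g χ w hw
    rwa [MulAction.mem_stabilizer_iff.1 hg] at this
  · intro h
    have : v ∈ ⨅ a : Z, (ρ a).eigenspace (χ a) := by
      simpa only [Submodule.mem_iInf, Module.End.mem_eigenspace_iff] using hv
    rw [h] at this
    exact hv0 this
  · intro h
    refine hz' ⟨χ ⟨z, hz⟩, ?_⟩
    ext w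
    have : w ∈ ⨅ a : Z, (ρ a).eigenspace (χ a) := h ▸ Submodule.mem_top
    simp only [Submodule.mem_iInf, Module.End.mem_eigenspace_iff] at this
    simpa using this ⟨z, hz⟩

/-- conjugation by a group element -/
def conjE (ρ : G →* Module.End K V) (g : G) : Module.End K (Module.End K V) :=
  LinearMap.mulLeft K (ρ g) ∘ₗ LinearMap.mulRight K (ρ g⁻¹)

theorem conjE_apply (ρ : G →* Module.End K V) (g : G) (x : Module.End K V) :
    conjE ρ g x = ρ g * (x * ρ g⁻¹) := rfl

theorem mal_det [Nontrivial V] (ρ : G →* Module.End K V) (A : Subgroup G)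
    (h1 : ∀ a ∈ A, ∀ b ∈ A, ∃ c : K, ρ ⁅a, b⁆ = c • 1)
    (h2 : ∀ a ∈ A, (∀ b ∈ A, ρ a * ρ b = ρ b * ρ a) → ∃ c : K, ρ a = c • 1) (δ : K) :
    {x | (∃ a ∈ A, ρ a = x) ∧ LinearMap.det x = δ}.Finite ∧
    {x | (∃ a ∈ A, ρ a = x) ∧ LinearMap.det x = δ}.ncard ≤ finrank K V ^ 3 := by
  classical
  set S := {x | (∃ a ∈ A, ρ a = x) ∧ LinearMap.det x = δ}
  have hinv : ∀ g, ρ g * ρ g⁻¹ = 1 := fun g => by rw [← map_mul, mul_inv_cancel, map_one]
  have hinv' : ∀ g, ρ g⁻¹ * ρ g = 1 := fun g => by rw [← map_mul, inv_mul_cancel, map_one]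
  have hne : ∀ g, ρ g ≠ 0 := fun g h => by simpa [h] using hinv g
  obtain ⟨hf, hn⟩ := mal_card (fun b : A => conjE ρ b)
  set X := {χ : A → K | ∃ v, v ≠ 0 ∧ ∀ b : A, conjE ρ b v = χ b • v}
  have hch : ∀ a ∈ A, ∃ χ : A → K, ∀ b : A, conjE ρ b (ρ a) = χ b • ρ a := fun a ha => by
    choose χ hχ using fun b : A => h1 b b.2 a ha
    refine ⟨χ, fun b => ?_⟩
    have : conjE ρ b (ρ a) = ρ ⁅(b : G), a⁆ * ρ a := by
      rw [conjE_apply, ← map_mul, ← map_mul, ← map_mul, commutatorElement_def]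
      simp [mul_assoc]
    rw [this, hχ, smul_mul_assoc, one_mul]
  let Fb : (A → K) → Set (Module.End K V) := fun χ =>
    {x | x ∈ S ∧ ∀ b : A, conjE ρ b x = χ b • x}
  have hFb : ∀ χ, (Fb χ).Finite ∧ (Fb χ).ncard ≤ finrank K V := fun χ => by
    rcases (Fb χ).eq_empty_or_nonempty with h | ⟨_, ⟨⟨a, ha, rfl⟩, hδ⟩, hx⟩
    · simp [h]
    have hpos : 0 < finrank K V := finrank_pos
    have hsub : Fb χ ⊆ (fun c : K => c • ρ a) ''
        ((Polynomial.nthRoots (finrank K V) (1 : K)).toFinset : Set K) := by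
      rintro _ ⟨⟨⟨a', ha', rfl⟩, hδ'⟩, hx'⟩
      obtain ⟨c, hc⟩ := h2 (a' * a⁻¹) (mul_mem ha' (inv_mem ha)) fun b hb => by
        have e1 : ρ b * ρ a' = χ ⟨b, hb⟩ • (ρ a' * ρ b) := by
          have := congrArg (· * ρ b) (hx' ⟨b, hb⟩)
          simpa only [conjE_apply, mul_assoc, hinv', mul_one, smul_mul_assoc] using this
        have e2 : ρ b * ρ a = χ ⟨b, hb⟩ • (ρ a * ρ b) := by
          have := congrArg (· * ρ b) (hx ⟨b, hb⟩)
          simpa only [conjE_apply, mul_assoc, hinv', mul_one, smul_mul_assoc] using this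
        have e3 : ρ a⁻¹ * ρ b = χ ⟨b, hb⟩ • (ρ b * ρ a⁻¹) := by
          calc ρ a⁻¹ * ρ b = ρ a⁻¹ * (ρ b * ρ a) * ρ a⁻¹ := by
                rw [mul_assoc, mul_assoc, hinv, mul_one]
            _ = _ := by
                rw [e2, mul_smul_comm, smul_mul_assoc, ← mul_assoc, hinv', one_mul]
        rw [map_mul, mul_assoc, e3, ← mul_assoc (ρ b), e1, mul_smul_comm, smul_mul_assoc, mul_assoc]
      have e : ρ a' = c • ρ a := by
        have := congrArg (· * ρ a) hc
        simpa only [map_mul, mul_assoc, hinv', mul_one, smul_mul_assoc, one_mul] using this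
      refine ⟨c, ?_, e.symm⟩
      have hd : LinearMap.det (ρ a) ≠ 0 := fun h => by
        have := congrArg LinearMap.det (hinv a)
        simp [h] at this
      rw [e, LinearMap.det_smul, ← hδ] at hδ'
      simp only [Finset.mem_coe, Multiset.mem_toFinset, Polynomial.mem_nthRoots hpos]
      exact mul_right_cancel₀ hd (by rw [hδ', one_mul])
    refine ⟨((Finset.finite_toSet _).image _).subset hsub, ?_⟩
    refine (Set.ncard_le_ncard hsub ((Finset.finite_toSet _).image _)).trans ?_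
    refine (Set.ncard_image_le (Finset.finite_toSet _)).trans ?_
    rw [Set.ncard_coe_finset]
    exact (Multiset.toFinset_card_le _).trans (Polynomial.card_nthRoots _ _)
  have hsub : S ⊆ ↑(hf.toFinset.biUnion fun χ => (hFb χ).1.toFinset) := by
    rintro _ ⟨⟨a, ha, rfl⟩, hδ⟩
    obtain ⟨χ, hχ⟩ := hch a ha
    simp only [Finset.coe_biUnion, Set.Finite.coe_toFinset, Set.mem_iUnion]
    exact ⟨χ, ⟨ρ a, hne a, hχ⟩, ⟨⟨a, ha, rfl⟩, hδ⟩, hχ⟩
  refine ⟨(Finset.finite_toSet _).subset hsub, ?_⟩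
  refine (Set.ncard_le_ncard hsub (Finset.finite_toSet _)).trans ?_
  rw [Set.ncard_coe_finset]
  refine (Finset.card_biUnion_le_card_mul _ _ (finrank K V) fun χ _ => ?_).trans ?_
  · rw [← Set.ncard_eq_toFinset_card _ (hFb χ).1]; exact (hFb χ).2
  · rw [← Set.ncard_eq_toFinset_card _ hf, pow_succ, pow_two]
    refine Nat.mul_le_mul_right _ (hn.trans_eq ?_)
    rw [Module.finrank_linearMap]

theorem mal_cent [Nontrivial V] (ρ : G →* Module.End K V) (A : Subgroup G) [hA : A.Normal]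
    (h1 : ∀ a ∈ A, ∀ b ∈ A, ∃ c : K, ρ ⁅a, b⁆ = c • 1)
    (h2 : ∀ a ∈ A, (∀ b ∈ A, ρ a * ρ b = ρ b * ρ a) → ∃ c : K, ρ a = c • 1) :
    ∃ C : Subgroup G, C.index ≠ 0 ∧ C.index ≤ (finrank K V ^ 3) ^ (finrank K V ^ 2) ∧
      ∀ g ∈ C, ∀ b ∈ A, ρ g * ρ b = ρ b * ρ g := by
  classical
  have hinv : ∀ g, ρ g * ρ g⁻¹ = 1 := fun g => by rw [← map_mul, mul_inv_cancel, map_one]
  have hinv' : ∀ g, ρ g⁻¹ * ρ g = 1 := fun g => by rw [← map_mul, inv_mul_cancel, map_one]
  letI : MulAction G (Module.End K V) :=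
    { smul := fun g x => conjE ρ g x
      one_smul := fun x => by change conjE ρ 1 x = x; simp [conjE_apply]
      mul_smul := fun g h x => by
        change conjE ρ (g * h) x = conjE ρ g (conjE ρ h x)
        simp [conjE_apply, mul_assoc] }
  have hsm : ∀ (g : G) (x : Module.End K V), g • x = ρ g * (x * ρ g⁻¹) := fun _ _ => rfl
  obtain ⟨B, hB1, hB2, hB3⟩ := exists_linearIndependent K (ρ '' (A : Set G))
  have hBf : Finite B := hB3.finite
  have := Fintype.ofFinite B
  have hst : ∀ x : B, (MulAction.stabilizer G (x : Module.End K V)).index ≠ 0 ∧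
      (MulAction.stabilizer G (x : Module.End K V)).index ≤ finrank K V ^ 3 := fun x => by
    obtain ⟨a, ha, e⟩ := hB1 x.2
    obtain ⟨hf, hn⟩ := mal_det ρ A h1 h2 (LinearMap.det (ρ a))
    have hsub : MulAction.orbit G (x : Module.End K V) ⊆
        {x | (∃ a ∈ A, ρ a = x) ∧ LinearMap.det x = LinearMap.det (ρ a)} := by
      rintro _ ⟨g, rfl⟩
      refine ⟨⟨g * a * g⁻¹, hA.conj_mem a ha g, by simp only [hsm, ← e, map_mul, mul_assoc]⟩, ?_⟩
      have := congrArg LinearMap.det (hinv g)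
      simp only [hsm, ← e, map_mul, map_one] at this ⊢
      rw [mul_left_comm, this, mul_one]
    rw [MulAction.index_stabilizer]
    exact ⟨((Set.ncard_pos (hf.subset hsub)).2 ⟨_, MulAction.mem_orbit_self _⟩).ne',
      (Set.ncard_le_ncard hsub hf).trans hn⟩
  refine ⟨⨅ x : B, MulAction.stabilizer G (x : Module.End K V),
    Subgroup.index_iInf_ne_zero fun x => (hst x).1, (Subgroup.index_iInf_le _).trans ?_, ?_⟩
  · refine (Finset.prod_le_pow_card _ _ _ fun x _ => (hst x).2).trans ?_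
    refine Nat.pow_le_pow_right (Nat.pow_pos finrank_pos) ?_
    rw [Finset.card_univ, pow_two, ← Module.finrank_linearMap K K V V]
    exact hB3.fintype_card_le_finrank
  · intro g hg b hb
    have hb' : ρ b ∈ Submodule.span K B := hB2 ▸ Submodule.subset_span ⟨b, hb, rfl⟩
    generalize ρ b = y at hb'
    induction hb' using Submodule.span_induction with
    | mem x hx =>
      have := congrArg (· * ρ g) (Subgroup.mem_iInf.1 hg ⟨x, hx⟩)
      simpa only [hsm, mul_assoc, hinv', mul_one] using this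
    | zero => simp
    | add x y _ _ hx hy => rw [mul_add, add_mul, hx, hy]
    | smul c x _ hx => rw [mul_smul_comm, smul_mul_assoc, hx]

end Step

theorem mal_step {r e f f' : ℕ} (ih : MalP r (e + 1) f) (ih' : MalP (r + 1) e f') :
    MalP (r + 1) (e + 1) (f * f * (r + 1) + f' * ((r + 1) ^ 3) ^ ((r + 1) ^ 2) + 1) := by
  intro K _ _ V _ _ _ hV G _ ρ hρ
  rcases subsingleton_or_nontrivial V with hs | hs
  · exact ⟨⊤, by simp, by simp, fun _ _ _ => Subsingleton.elim _ _⟩
  let A := derivedSeries G e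
  have hA : A.Normal := derivedSeries_normal G e
  by_cases h2 : ∀ a ∈ A, (∀ b ∈ A, ρ a * ρ b = ρ b * ρ a) → ∃ c : K, ρ a = c • 1
  · obtain ⟨C, c0, c1, c2⟩ := mal_cent ρ A
      (fun a ha b hb => hρ _ (Subgroup.commutator_mem_commutator ha hb)) h2
    obtain ⟨H, a, b, c⟩ := mal_pass c0 c1 (ih' K V hV C (ρ.comp C.subtype) fun g hg =>
      h2 g (mal_sub C hg) (c2 g g.2))
    refine ⟨H, a, b.trans ?_, c⟩
    have : (finrank K V ^ 3) ^ (finrank K V ^ 2) ≤ ((r + 1) ^ 3) ^ ((r + 1) ^ 2) :=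
      (Nat.pow_le_pow_left (Nat.pow_le_pow_left hV _) _).trans
        (Nat.pow_le_pow_right (by positivity) (Nat.pow_le_pow_left hV _))
    have := Nat.mul_le_mul_left f' this
    omega
  · push Not at h2
    obtain ⟨z, hz, hz1, hz2⟩ := h2
    let Z : Subgroup G :=
      { carrier := {a | a ∈ A ∧ ∀ b ∈ A, ρ a * ρ b = ρ b * ρ a}
        one_mem' := ⟨one_mem _, by simp⟩
        mul_mem' := fun {a a'} h h' => ⟨mul_mem h.1 h'.1, fun b hb => by
          rw [map_mul, mul_assoc, h'.2 b hb, ← mul_assoc, h.2 b hb, mul_assoc]⟩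
        inv_mem' := fun {a} h => ⟨inv_mem h.1, fun b hb => by
          have := congrArg (fun y => ρ a⁻¹ * y * ρ a⁻¹) (h.2 b hb)
          simp only [← map_mul] at this ⊢
          simpa [mul_assoc] using this.symm⟩ }
    have hZ : Z.Normal := ⟨fun a ha g => ⟨hA.conj_mem a ha.1 g, fun b hb => by
      have := congrArg (fun y => ρ g * y * ρ g⁻¹) (ha.2 (g⁻¹ * b * g)
        (by simpa using hA.conj_mem b hb g⁻¹))
      simp only [← map_mul] at this ⊢
      simpa [mul_assoc] using this⟩⟩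
    obtain ⟨S, s0, s1, W, w0, w1, w2⟩ := mal_split ρ Z (fun a ha b hb => ha.2 b hb.1)
      (z := z) ⟨hz, hz1⟩ (fun ⟨c, hc⟩ => hz2 c hc)
    obtain ⟨H, a, b, c⟩ := mal_pass s0 (s1.trans hV) (mal_red ih hV (ρ.comp S.subtype)
      (fun g hg => hρ g (mal_sub S hg)) W (fun g => w0 g g.2) w1 w2)
    exact ⟨H, a, by omega, c⟩

theorem mal_all (r : ℕ) : ∀ e, ∃ f, MalP r e f := by
  induction r with
  | zero => exact fun e => ⟨1, mal_rank_zero e⟩
  | succ r ih =>
    intro e
    induction e with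
    | zero => exact ⟨1, mal_zero _⟩
    | succ e ih' =>
      obtain ⟨f, hf⟩ := ih (e + 1)
      obtain ⟨f', hf'⟩ := ih'
      exact ⟨_, mal_step hf hf'⟩

/-- Soluble linear groups over any field: a subgroup of bounded index has unipotent derived
subgroup. -/
theorem malcev (r d : ℕ) : ∃ f : ℕ, ∀ (k : Type) [Field k] (V : Type) [AddCommGroup V]
    [Module k V] [Module.Finite k V], finrank k V ≤ r → ∀ (G : Type) [Group G]
    (ρ : G →* Module.End k V), (∀ g ∈ derivedSeries G d, ρ g = 1) →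
    ∃ H : Subgroup G, H.index ≠ 0 ∧ H.index ≤ f ∧ Uni ρ ⁅H, H⁆ r := by
  obtain ⟨f, hf⟩ := mal_all r d
  refine ⟨f, fun k _ V _ _ _ hV G _ ρ hρ => ?_⟩
  let K := AlgebraicClosure k
  let φ := Module.End.baseChangeHom k K V
  have hφ : Function.Injective φ := LinearMap.baseChangeHom_injective k V K
  have hr : finrank K (TensorProduct k K V) = finrank k V := Module.finrank_baseChange
  obtain ⟨H, a, b, c⟩ := hf K (TensorProduct k K V) (hr ▸ hV) G (φ.toMonoidHom.comp ρ)
    fun g hg => ⟨1, by simp [hρ g hg]⟩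
  refine ⟨H, a, b, fun l hl hl' => hφ ?_⟩
  rw [map_list_prod, map_zero, List.map_map, ← c l hl (hr ▸ hV.trans hl')]
  congr 2
  funext x
  simp

end Pool.Agent.P.MP_257122_al.H1
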